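import Mathlib

set_option autoImplicit false

open Finset

namespace Pool.Agent.Results.MP_8f4311_co.PlanarRamsey

/-- Value `f(x, y)` of a real polynomial in four variables at two points of the plane. -/
noncomputable def polyVal (f : MvPolynomial (Fin 4) ℝ) (x y : ℝ × ℝ) : ℝ :=
  MvPolynomial.eval ![x.1, x.2, y.1, y.2] f

/-- The semi-algebraic graph of the points `v 0, v 1, ...`: for `i < j` the pair `i, j` is an edge
iff `f (v i, v j) ≥ 0`. -/
def semiGraph (f : MvPolynomial (Fin 4) ℝ) {N : ℕ} (v : Fin N → ℝ × ℝ) : SimpleGraph (Fin N) where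
  Adj i j := (i < j ∧ 0 ≤ polyVal f (v i) (v j)) ∨ (j < i ∧ 0 ≤ polyVal f (v j) (v i))
  symm := ⟨fun i j h => by tauto⟩
  loopless := ⟨fun i h => by
    rcases h with h | h <;> exact lt_irrefl _ h.1⟩

/-- The Ramsey number `R_f(s, n)` of the problem: the least `N` such that for all `N` distinct
points of the plane the graph has a clique of size `s` or an independent set of size `n`. -/
noncomputable def semiRamsey (f : MvPolynomial (Fin 4) ℝ) (s n : ℕ) : ℕ :=
  sInf {N : ℕ | ∀ v : Fin N → ℝ × ℝ, Function.Injective v →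
    (∃ t : Finset (Fin N), (semiGraph f v).IsNClique s t) ∨
    (∃ t : Finset (Fin N), (semiGraph f v).IsNIndepSet n t)}

/-! ### Combinatorics of subsets of `range (2 n)` -/

/-- `i` is the largest index in which `s` and `t` differ. -/
def Top (s t : Finset ℕ) (i : ℕ) : Prop := ¬(i ∈ s ↔ i ∈ t) ∧ ∀ j, i < j → (j ∈ s ↔ j ∈ t)

/-- `i` is the least index in which `s` and `t` differ. -/
def Bot (s t : Finset ℕ) (i : ℕ) : Prop := ¬(i ∈ s ↔ i ∈ t) ∧ ∀ j, j < i → (j ∈ s ↔ j ∈ t)

theorem exists_top {s t : Finset ℕ} (h : s ≠ t) : ∃ i, Top s t i := by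
  classical
  have hne : (symmDiff s t).Nonempty := by
    rw [Finset.nonempty_iff_ne_empty]
    intro h0
    apply h
    have : symmDiff s t = ⊥ := h0
    exact symmDiff_eq_bot.mp this
  refine ⟨(symmDiff s t).max' hne, ?_, ?_⟩
  · have := (symmDiff s t).max'_mem hne
    rw [Finset.mem_symmDiff] at this
    tauto
  · intro j hj
    by_contra hcon
    have hmem : j ∈ symmDiff s t := by
      rw [Finset.mem_symmDiff]; tauto
    have := (symmDiff s t).le_max' j hmem
    omega

theorem exists_bot {s t : Finset ℕ} (h : s ≠ t) : ∃ i, Bot s t i := by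
  classical
  have hne : (symmDiff s t).Nonempty := by
    rw [Finset.nonempty_iff_ne_empty]
    intro h0
    apply h
    have : symmDiff s t = ⊥ := h0
    exact symmDiff_eq_bot.mp this
  refine ⟨(symmDiff s t).min' hne, ?_, ?_⟩
  · have := (symmDiff s t).min'_mem hne
    rw [Finset.mem_symmDiff] at this
    tauto
  · intro j hj
    by_contra hcon
    have hmem : j ∈ symmDiff s t := by
      rw [Finset.mem_symmDiff]; tauto
    have := (symmDiff s t).min'_le j hmem
    omega

/-- Adjacency: the top and the bottom difference are exactly `n` apart. -/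
def Far (n : ℕ) (s t : Finset ℕ) : Prop := ∃ i, Top s t (i + n) ∧ Bot s t i

theorem Far.symm {n : ℕ} {s t : Finset ℕ} (h : Far n s t) : Far n t s := by
  obtain ⟨i, ⟨h1, h2⟩, h3, h4⟩ := h
  exact ⟨i, ⟨fun h => h1 h.symm, fun j hj => (h2 j hj).symm⟩,
    fun h => h3 h.symm, fun j hj => (h4 j hj).symm⟩

/-- No triangles. -/
theorem no_triangle (n : ℕ) (r s t : Finset ℕ) (h1 : Far n r s) (h2 : Far n s t) (h3 : Far n r t) :
    False := by
  obtain ⟨a, ⟨a1, a2⟩, a3, a4⟩ := h1
  obtain ⟨b, ⟨b1, b2⟩, b3, b4⟩ := h2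
  obtain ⟨c, ⟨c1, c2⟩, c3, c4⟩ := h3
  rcases lt_trichotomy a b with h | h | h
  · rcases lt_trichotomy c b with h' | h' | h'
    · exact b1 ((a2 (b + n) (by omega)).symm.trans (c2 (b + n) (by omega)))
    · subst h'
      exact a3 ((c4 a h).trans (b4 a h).symm)
    · exact c1 ((a2 (c + n) (by omega)).trans (b2 (c + n) (by omega)))
  · subst h
    rcases lt_trichotomy c a with h' | h' | h'
    · exact c3 ((a4 c h').trans (b4 c h'))
    · subst h'
      clear a2 a3 a4 b2 b3 b4 c2 c3 c4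
      by_cases h1 : c + n ∈ s
      · have h2 : c + n ∉ r := fun hr => a1 ⟨fun _ => h1, fun _ => hr⟩
        have h3 : c + n ∉ t := fun hr => b1 ⟨fun _ => hr, fun _ => h1⟩
        exact c1 ⟨fun h => absurd h h2, fun h => absurd h h3⟩
      · have h2 : c + n ∈ r := by
          by_contra hr
          exact a1 ⟨fun h => absurd h hr, fun h => absurd h h1⟩
        have h3 : c + n ∈ t := by
          by_contra hr
          exact b1 ⟨fun h => absurd h h1, fun h => absurd h hr⟩
        exact c1 ⟨fun _ => h3, fun _ => h2⟩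
    · exact c1 ((a2 (c + n) (by omega)).trans (b2 (c + n) (by omega)))
  · rcases lt_trichotomy c a with h' | h' | h'
    · exact a1 ((c2 (a + n) (by omega)).trans (b2 (a + n) (by omega)).symm)
    · subst h'
      exact b3 ((a4 b h).symm.trans (c4 b h))
    · exact c1 ((a2 (c + n) (by omega)).trans (b2 (c + n) (by omega)))

/-- Agreement outside the window `[j, j+n]`. -/
def Ctx (n j : ℕ) (s t : Finset ℕ) : Prop :=
  (∀ i, i < j → (i ∈ s ↔ i ∈ t)) ∧ ∀ i, j + n < i → (i ∈ s ↔ i ∈ t)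

theorem Ctx.symm {n j : ℕ} {s t : Finset ℕ} (h : Ctx n j s t) : Ctx n j t s :=
  ⟨fun i hi => (h.1 i hi).symm, fun i hi => (h.2 i hi).symm⟩

theorem Ctx.trans {n j : ℕ} {r s t : Finset ℕ} (h : Ctx n j r s) (h' : Ctx n j s t) :
    Ctx n j r t :=
  ⟨fun i hi => (h.1 i hi).trans (h'.1 i hi), fun i hi => (h.2 i hi).trans (h'.2 i hi)⟩

/-- The low bit `j` is determined inside `S` by the part outside the window. -/
def Det (S : Finset (Finset ℕ)) (n j : ℕ) (s : Finset ℕ) : Prop :=
  ∀ t ∈ S, Ctx n j s t → (j ∈ t ↔ j ∈ s)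

theorem det_or {S : Finset (Finset ℕ)} {n j : ℕ}
    (hS : ∀ s ∈ S, ∀ t ∈ S, ¬ Far n s t) {s t : Finset ℕ} (hs : s ∈ S) (ht : t ∈ S)
    (hst : Ctx n j s t) (hdet : ¬ Det S n j s) : (j + n ∈ t ↔ j + n ∈ s) := by
  have key : ∀ a ∈ S, ∀ b ∈ S, Ctx n j a b → ¬(j ∈ a ↔ j ∈ b) → (j + n ∈ a ↔ j + n ∈ b) := by
    intro a ha b hb hab h
    by_contra hcon
    exact hS a ha b hb ⟨j, ⟨hcon, fun i hi => hab.2 i hi⟩, h, fun i hi => hab.1 i hi⟩
  unfold Det at hdet
  push Not at hdet
  obtain ⟨u, hu, hsu, hne⟩ := hdet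
  have hne' : ¬(j ∈ u ↔ j ∈ s) := by tauto
  have e1 := key u hu s hs hsu.symm hne'
  by_cases hjt : (j ∈ t ↔ j ∈ s)
  · have e2 := key t ht u hu (hst.symm.trans hsu) (by tauto)
    tauto
  · exact key t ht s hs hst.symm hjt

open Classical in
/-- Low indices (below `n`) whose bit is determined by the outside of the window. -/
noncomputable def BB (S : Finset (Finset ℕ)) (n : ℕ) (s : Finset ℕ) : Finset ℕ :=
  (range n).filter fun j => Det S n j s

open Classical in
/-- Low indices (below `n`) whose bit is not determined by the outside of the window. -/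
noncomputable def AA (S : Finset (Finset ℕ)) (n : ℕ) (s : Finset ℕ) : Finset ℕ :=
  (range n).filter fun j => ¬ Det S n j s

theorem card_AA_BB (S : Finset (Finset ℕ)) (n : ℕ) (s : Finset ℕ) :
    (BB S n s).card + (AA S n s).card = n := by
  classical
  unfold AA BB
  rw [Finset.card_filter_add_card_filter_not]
  simp

theorem sum_BB {S : Finset (Finset ℕ)} {n : ℕ} (hsub : ∀ s ∈ S, s ⊆ range (2 * n)) :
    ∑ s ∈ S, 2 ^ (BB S n s).card ≤ 2 ^ (2 * n) := by
  classical
  have h1 : (S.sigma fun s => (BB S n s).powerset).card ≤ ((range (2 * n)).powerset).card := by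
    apply Finset.card_le_card_of_injOn (fun x => symmDiff x.1 x.2)
    · intro x hx
      simp only [Finset.coe_sigma, Set.mem_sigma_iff, Finset.mem_coe, Finset.mem_powerset] at hx
      simp only [Finset.coe_powerset, Set.mem_preimage, Set.mem_powerset_iff, Finset.coe_subset]
      intro i hi
      rw [Finset.mem_symmDiff] at hi
      rcases hi with hi | hi
      · exact hsub _ hx.1 hi.1
      · have := hx.2 hi.1
        unfold BB at this
        rw [Finset.mem_filter, Finset.mem_range] at this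
        rw [Finset.mem_range]; omega
    · rintro ⟨s, T⟩ hx ⟨t, T'⟩ hy hxy
      simp only [Finset.coe_sigma, Set.mem_sigma_iff, Finset.mem_coe, Finset.mem_powerset] at hx hy
      simp only at hxy
      obtain ⟨hs, hT⟩ := hx
      obtain ⟨ht, hT'⟩ := hy
      have hmem : ∀ i, (i ∉ T → i ∉ T' → (i ∈ s ↔ i ∈ t)) := by
        intro i h1 h2
        have : i ∈ symmDiff s T ↔ i ∈ symmDiff t T' := by rw [hxy]
        rw [Finset.mem_symmDiff, Finset.mem_symmDiff] at this
        tauto
      have hst : s = t := by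
        by_contra hne
        obtain ⟨i, hi, hi2⟩ := exists_bot hne
        have hctx : i < n → Ctx n i s t := by
          intro hin
          refine ⟨hi2, fun k hk => ?_⟩
          apply hmem k
          · intro hkT
            have := hT hkT
            unfold BB at this
            rw [Finset.mem_filter, Finset.mem_range] at this
            omega
          · intro hkT
            have := hT' hkT
            unfold BB at this
            rw [Finset.mem_filter, Finset.mem_range] at this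
            omega
        by_cases h1 : i ∈ T
        · have := hT h1
          unfold BB at this
          rw [Finset.mem_filter, Finset.mem_range] at this
          exact hi (this.2 t ht (hctx this.1)).symm
        · by_cases h2 : i ∈ T'
          · have := hT' h2
            unfold BB at this
            rw [Finset.mem_filter, Finset.mem_range] at this
            exact hi (this.2 s hs (hctx this.1).symm)
          · exact hi (hmem i h1 h2)
      subst hst
      have : T = T' := symmDiff_right_injective s hxy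
      subst this
      rfl
  rw [Finset.card_sigma, Finset.card_powerset, Finset.card_range] at h1
  refine le_trans (le_of_eq ?_) h1
  exact Finset.sum_congr rfl fun s _ => (Finset.card_powerset _).symm

theorem sum_AA {S : Finset (Finset ℕ)} {n : ℕ} (hsub : ∀ s ∈ S, s ⊆ range (2 * n))
    (hS : ∀ s ∈ S, ∀ t ∈ S, ¬ Far n s t) :
    ∑ s ∈ S, 2 ^ (AA S n s).card ≤ 2 ^ (2 * n) := by
  classical
  have h1 : (S.sigma fun s => ((AA S n s).image (fun j => j + n)).powerset).card ≤
      ((range (2 * n)).powerset).card := by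
    apply Finset.card_le_card_of_injOn (fun x => symmDiff x.1 x.2)
    · intro x hx
      simp only [Finset.coe_sigma, Set.mem_sigma_iff, Finset.mem_coe, Finset.mem_powerset] at hx
      simp only [Finset.coe_powerset, Set.mem_preimage, Set.mem_powerset_iff, Finset.coe_subset]
      intro i hi
      rw [Finset.mem_symmDiff] at hi
      rcases hi with hi | hi
      · exact hsub _ hx.1 hi.1
      · have := hx.2 hi.1
        rw [Finset.mem_image] at this
        obtain ⟨j, hj, rfl⟩ := this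
        unfold AA at hj
        rw [Finset.mem_filter, Finset.mem_range] at hj
        rw [Finset.mem_range]; omega
    · rintro ⟨s, T⟩ hx ⟨t, T'⟩ hy hxy
      simp only [Finset.coe_sigma, Set.mem_sigma_iff, Finset.mem_coe, Finset.mem_powerset] at hx hy
      simp only at hxy
      obtain ⟨hs, hT⟩ := hx
      obtain ⟨ht, hT'⟩ := hy
      have hmem : ∀ i, (i ∉ T → i ∉ T' → (i ∈ s ↔ i ∈ t)) := by
        intro i h1 h2
        have : i ∈ symmDiff s T ↔ i ∈ symmDiff t T' := by rw [hxy]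
        rw [Finset.mem_symmDiff, Finset.mem_symmDiff] at this
        tauto
      have hst : s = t := by
        by_contra hne
        obtain ⟨i, hi, hi2⟩ := exists_top hne
        have hctx : ∀ j, i = j + n → j < n → Ctx n j s t := by
          intro j hij hjn
          refine ⟨fun k hk => ?_, fun k hk => hi2 k (by omega)⟩
          apply hmem k
          · intro hkT
            have := hT hkT
            rw [Finset.mem_image] at this
            obtain ⟨l, hl, hl2⟩ := this
            omega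
          · intro hkT
            have := hT' hkT
            rw [Finset.mem_image] at this
            obtain ⟨l, hl, hl2⟩ := this
            omega
        by_cases h1 : i ∈ T
        · have := hT h1
          rw [Finset.mem_image] at this
          obtain ⟨j, hj, rfl⟩ := this
          unfold AA at hj
          rw [Finset.mem_filter, Finset.mem_range] at hj
          exact hi (det_or hS hs ht (hctx j rfl hj.1) hj.2).symm
        · by_cases h2 : i ∈ T'
          · have := hT' h2
            rw [Finset.mem_image] at this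
            obtain ⟨j, hj, rfl⟩ := this
            unfold AA at hj
            rw [Finset.mem_filter, Finset.mem_range] at hj
            exact hi (det_or hS ht hs (hctx j rfl hj.1).symm hj.2)
          · exact hi (hmem i h1 h2)
      subst hst
      have : T = T' := symmDiff_right_injective s hxy
      subst this
      rfl
  rw [Finset.card_sigma, Finset.card_powerset, Finset.card_range] at h1
  refine le_trans (le_of_eq ?_) h1
  refine Finset.sum_congr rfl fun s _ => ?_
  rw [Finset.card_powerset, Finset.card_image_of_injective _ (add_left_injective n)]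

theorem amgm {m a b : ℕ} (h : b + a = 2 * m) : 2 * 2 ^ m ≤ 2 ^ b + 2 ^ a := by
  have h1 : (2 ^ m) * (2 ^ m) = 2 ^ b * 2 ^ a := by
    rw [← pow_add, ← pow_add, h]; congr 1; omega
  by_contra hcon
  push Not at hcon
  have h2 : (2 ^ b + 2 ^ a) * (2 ^ b + 2 ^ a) < (2 * 2 ^ m) * (2 * 2 ^ m) :=
    Nat.mul_lt_mul'' hcon hcon
  have h3 : ∀ x y : ℕ, 4 * (x * y) ≤ (x + y) * (x + y) := by
    intro x y
    zify
    nlinarith [sq_nonneg ((x : ℤ) - y)]
  have h4 := h3 (2 ^ b) (2 ^ a)
  rw [← h1] at h4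
  have h5 : (2 * 2 ^ m) * (2 * 2 ^ m) = 4 * (2 ^ m * 2 ^ m) := by ring
  omega

/-- An independent set has at most `8 ^ m` of the `16 ^ m` vertices. -/
theorem card_bound {m : ℕ} {S : Finset (Finset ℕ)} (hsub : ∀ s ∈ S, s ⊆ range (2 * (2 * m)))
    (hS : ∀ s ∈ S, ∀ t ∈ S, ¬ Far (2 * m) s t) : S.card ≤ 8 ^ m := by
  have h1 := sum_BB hsub
  have h2 := sum_AA hsub hS
  have h3 : ∑ s ∈ S, 2 * 2 ^ m ≤ ∑ s ∈ S, (2 ^ (BB S (2 * m) s).card + 2 ^ (AA S (2 * m) s).card) :=
    Finset.sum_le_sum fun s _ => amgm (card_AA_BB S (2 * m) s)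
  rw [Finset.sum_add_distrib, Finset.sum_const, smul_eq_mul] at h3
  have h4 : (2 : ℕ) ^ (2 * (2 * m)) = 8 ^ m * 2 ^ m := by
    rw [← mul_pow, pow_mul, pow_mul, ← pow_mul]
    norm_num [pow_mul]
  have h5 : S.card * (2 * 2 ^ m) ≤ 8 ^ m * (2 * 2 ^ m) := by
    calc S.card * (2 * 2 ^ m) ≤ 2 ^ (2 * (2 * m)) + 2 ^ (2 * (2 * m)) := h3.trans (add_le_add h1 h2)
      _ = 8 ^ m * (2 * 2 ^ m) := by rw [h4]; ring
  exact Nat.le_of_mul_le_mul_right h5 (by positivity)

/-! ### Geometry -/

theorem dist_weights (g : ℕ → ℝ) (hg : ∀ i, 0 ≤ g i) (s t : Finset ℕ) (i : ℕ)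
    (hi : ¬(i ∈ s ↔ i ∈ t))
    (hF : ∀ F : Finset ℕ, (∀ j ∈ F, j ≠ i ∧ ¬(j ∈ s ↔ j ∈ t)) → ∑ j ∈ F, g j ≤ g i / 9) :
    8 / 9 * g i ≤ |∑ j ∈ s, g j - ∑ j ∈ t, g j| ∧
      |∑ j ∈ s, g j - ∑ j ∈ t, g j| ≤ 10 / 9 * g i := by
  classical
  have main : ∀ s t : Finset ℕ, i ∈ s → i ∉ t →
      (∀ F : Finset ℕ, (∀ j ∈ F, j ≠ i ∧ ¬(j ∈ s ↔ j ∈ t)) → ∑ j ∈ F, g j ≤ g i / 9) →
      8 / 9 * g i ≤ ∑ j ∈ s, g j - ∑ j ∈ t, g j ∧
      ∑ j ∈ s, g j - ∑ j ∈ t, g j ≤ 10 / 9 * g i := by
    intro s t his hit hF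
    have h1 : ∑ j ∈ s \ t, g j - ∑ j ∈ t \ s, g j = ∑ j ∈ s, g j - ∑ j ∈ t, g j :=
      Finset.sum_sdiff_sub_sum_sdiff
    have h2 : ∑ j ∈ s \ t, g j = g i + ∑ j ∈ (s \ t).erase i, g j :=
      (Finset.add_sum_erase _ _ (by rw [Finset.mem_sdiff]; exact ⟨his, hit⟩)).symm
    have h3 : ∑ j ∈ (s \ t).erase i, g j ≤ g i / 9 := by
      apply hF
      intro j hj
      rw [Finset.mem_erase, Finset.mem_sdiff] at hj
      exact ⟨hj.1, fun h => hj.2.2 (h.1 hj.2.1)⟩
    have h4 : ∑ j ∈ t \ s, g j ≤ g i / 9 := by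
      apply hF
      intro j hj
      rw [Finset.mem_sdiff] at hj
      refine ⟨?_, fun h => hj.2 (h.2 hj.1)⟩
      rintro rfl
      exact hit hj.1
    have h5 : 0 ≤ ∑ j ∈ (s \ t).erase i, g j := Finset.sum_nonneg fun j _ => hg j
    have h6 : 0 ≤ ∑ j ∈ t \ s, g j := Finset.sum_nonneg fun j _ => hg j
    constructor <;> linarith
  have hgi := hg i
  by_cases his : i ∈ s
  · have hit : i ∉ t := fun h => hi ⟨fun _ => h, fun _ => his⟩
    obtain ⟨h1, h2⟩ := main s t his hit hF
    have h0 : 0 ≤ ∑ j ∈ s, g j - ∑ j ∈ t, g j := by linarith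
    rw [abs_of_nonneg h0]
    exact ⟨h1, h2⟩
  · have hit : i ∈ t := by
      by_contra h
      exact hi ⟨fun h' => absurd h' his, fun h' => absurd h' h⟩
    obtain ⟨h1, h2⟩ := main t s hit his (fun F hF' => hF F fun j hj =>
      ⟨(hF' j hj).1, fun h => (hF' j hj).2 h.symm⟩)
    have h0 : 0 ≤ ∑ j ∈ t, g j - ∑ j ∈ s, g j := by linarith
    rw [abs_sub_comm, abs_of_nonneg h0]
    exact ⟨h1, h2⟩

/-- First coordinate of the point of `s`. -/
noncomputable def Xc (s : Finset ℕ) : ℝ := ∑ j ∈ s, (10 : ℝ) ^ j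

/-- Second coordinate of the point of `s`, before scaling. -/
noncomputable def Yc (s : Finset ℕ) : ℝ := ∑ j ∈ s, (1 / 10 : ℝ) ^ j

/-- The point of `s`. -/
noncomputable def pt (n : ℕ) (s : Finset ℕ) : ℝ × ℝ := (Xc s, (1 / 10 : ℝ) ^ n * Yc s)

theorem Xc_dist {s t : Finset ℕ} {i : ℕ} (h : Top s t i) :
    8 / 9 * (10 : ℝ) ^ i ≤ |Xc s - Xc t| ∧ |Xc s - Xc t| ≤ 10 / 9 * (10 : ℝ) ^ i := by
  apply dist_weights (fun j => (10 : ℝ) ^ j) (fun j => by positivity) s t i h.1
  intro F hF
  have h1 : F ⊆ range i := by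
    intro j hj
    obtain ⟨h2, h3⟩ := hF j hj
    rw [Finset.mem_range]
    by_contra h4
    exact h3 (h.2 j (by omega))
  have h2 : ∑ j ∈ F, (10 : ℝ) ^ j ≤ ∑ j ∈ range i, (10 : ℝ) ^ j :=
    Finset.sum_le_sum_of_subset_of_nonneg h1 fun j _ _ => by positivity
  rw [geom_sum_eq (by norm_num)] at h2
  have h3 : ((10 : ℝ) ^ i - 1) / (10 - 1) ≤ (10 : ℝ) ^ i / 9 := by
    have : (10 : ℝ) - 1 = 9 := by norm_num
    rw [this]
    gcongr
    linarith
  exact h2.trans h3

theorem Yc_dist {s t : Finset ℕ} {i : ℕ} (h : Bot s t i) :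
    8 / 9 * (1 / 10 : ℝ) ^ i ≤ |Yc s - Yc t| ∧ |Yc s - Yc t| ≤ 10 / 9 * (1 / 10 : ℝ) ^ i := by
  apply dist_weights (fun j => (1 / 10 : ℝ) ^ j) (fun j => by positivity) s t i h.1
  intro F hF
  obtain ⟨M, hM⟩ : ∃ M, ∀ j ∈ F, j < M := ⟨F.sup id + 1, fun j hj => by
    have : id j ≤ F.sup id := Finset.le_sup hj
    simp only [id] at this
    omega⟩
  have h1 : F ⊆ Ico (i + 1) (M + i + 1) := by
    intro j hj
    obtain ⟨h2, h3⟩ := hF j hj
    rw [Finset.mem_Ico]
    have h5 := hM j hj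
    refine ⟨?_, by omega⟩
    by_contra h4
    exact h3 (h.2 j (by omega))
  have h2 : ∑ j ∈ F, (1 / 10 : ℝ) ^ j ≤ ∑ j ∈ Ico (i + 1) (M + i + 1), (1 / 10 : ℝ) ^ j :=
    Finset.sum_le_sum_of_subset_of_nonneg h1 fun j _ _ => by positivity
  rw [geom_sum_Ico (by norm_num) (by omega)] at h2
  have h3 : ((1 / 10 : ℝ) ^ (M + i + 1) - (1 / 10 : ℝ) ^ (i + 1)) / (1 / 10 - 1) ≤
      (1 / 10 : ℝ) ^ i / 9 := by
    have h4 : (0 : ℝ) ≤ (1 / 10 : ℝ) ^ (M + i + 1) := by positivity
    have h5 : (1 / 10 : ℝ) ^ (i + 1) = (1 / 10 : ℝ) ^ i * (1 / 10) := pow_succ _ _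
    rw [h5]
    have : (1 / 10 : ℝ) - 1 = -(9 / 10) := by norm_num
    rw [this, div_neg, ← neg_div, div_le_iff₀ (by norm_num)]
    linarith
  exact h2.trans h3

/-- The fixed polynomial `(4 - D ^ 2) (D ^ 2 - 1 / 4)` with `D = (x₁ - y₁) (x₂ - y₂)`. -/
noncomputable def ff : MvPolynomial (Fin 4) ℝ :=
  (MvPolynomial.C 4 - ((MvPolynomial.X 0 - MvPolynomial.X 2) *
      (MvPolynomial.X 1 - MvPolynomial.X 3)) ^ 2) *
    (((MvPolynomial.X 0 - MvPolynomial.X 2) *
      (MvPolynomial.X 1 - MvPolynomial.X 3)) ^ 2 - MvPolynomial.C (1 / 4))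

theorem polyVal_ff (x y : ℝ × ℝ) : polyVal ff x y =
    (4 - ((x.1 - y.1) * (x.2 - y.2)) ^ 2) * (((x.1 - y.1) * (x.2 - y.2)) ^ 2 - 1 / 4) := by
  simp [polyVal, ff]

theorem top_unique {s t : Finset ℕ} {i j : ℕ} (h : Top s t i) (h' : Top s t j) : i = j := by
  rcases lt_trichotomy i j with h1 | h1 | h1
  · exact absurd (h.2 j h1) h'.1
  · exact h1
  · exact absurd (h'.2 i h1) h.1

theorem bot_unique {s t : Finset ℕ} {i j : ℕ} (h : Bot s t i) (h' : Bot s t j) : i = j := by
  rcases lt_trichotomy i j with h1 | h1 | h1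
  · exact absurd (h'.2 i h1) h.1
  · exact h1
  · exact absurd (h.2 j h1) h'.1

theorem edge_iff {n : ℕ} {s t : Finset ℕ} (hst : s ≠ t) :
    0 ≤ polyVal ff (pt n s) (pt n t) ↔ Far n s t := by
  obtain ⟨i, hi⟩ := exists_top hst
  obtain ⟨b, hb⟩ := exists_bot hst
  have hfar : Far n s t ↔ i = b + n := by
    constructor
    · rintro ⟨c, hc1, hc2⟩
      have e1 := top_unique hi hc1
      have e2 := bot_unique hb hc2
      omega
    · intro h
      subst h
      exact ⟨b, hi, hb⟩
  rw [hfar, polyVal_ff]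
  obtain ⟨x1, x2⟩ := Xc_dist hi
  obtain ⟨y1, y2⟩ := Yc_dist hb
  have hD : ((pt n s).1 - (pt n t).1) * ((pt n s).2 - (pt n t).2) =
      (Xc s - Xc t) * ((1 / 10 : ℝ) ^ n * (Yc s - Yc t)) := by
    simp only [pt]; ring
  rw [hD]
  have hsq : ((Xc s - Xc t) * ((1 / 10 : ℝ) ^ n * (Yc s - Yc t))) ^ 2 =
      (|Xc s - Xc t| * |Yc s - Yc t| * (1 / 10 : ℝ) ^ n) ^ 2 := by
    rw [mul_pow, mul_pow, mul_pow, mul_pow, sq_abs, sq_abs]; ring
  rw [hsq]
  set a := |Xc s - Xc t| with ha
  set y := |Yc s - Yc t| with hy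
  set E := a * y * (1 / 10 : ℝ) ^ n with hE
  set P := (10 : ℝ) ^ i * (1 / 10 : ℝ) ^ b * (1 / 10 : ℝ) ^ n with hP
  have hpow : (0 : ℝ) < (1 / 10 : ℝ) ^ n := by positivity
  have hE1 : 64 / 81 * P ≤ E := by
    have : 8 / 9 * (10 : ℝ) ^ i * (8 / 9 * (1 / 10 : ℝ) ^ b) ≤ a * y := by
      gcongr
    calc 64 / 81 * P = 8 / 9 * (10 : ℝ) ^ i * (8 / 9 * (1 / 10 : ℝ) ^ b) * (1 / 10 : ℝ) ^ n := by
          rw [hP]; ring
      _ ≤ a * y * (1 / 10 : ℝ) ^ n := by gcongr
  have hE2 : E ≤ 100 / 81 * P := by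
    have : a * y ≤ 10 / 9 * (10 : ℝ) ^ i * (10 / 9 * (1 / 10 : ℝ) ^ b) := by
      have hy0 : 0 ≤ y := abs_nonneg _
      gcongr
    calc E = a * y * (1 / 10 : ℝ) ^ n := rfl
      _ ≤ 10 / 9 * (10 : ℝ) ^ i * (10 / 9 * (1 / 10 : ℝ) ^ b) * (1 / 10 : ℝ) ^ n := by gcongr
      _ = 100 / 81 * P := by rw [hP]; ring
  have hone : ∀ k : ℕ, (10 : ℝ) ^ k * (1 / 10 : ℝ) ^ k = 1 := by
    intro k
    rw [← mul_pow]; norm_num
  have hP0 : 0 < P := by positivity
  rcases lt_trichotomy i (b + n) with h | h | h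
  · obtain ⟨d, hd⟩ : ∃ d, b + n = i + d + 1 := ⟨b + n - i - 1, by omega⟩
    have hPd : P = (1 / 10 : ℝ) ^ (d + 1) := by
      rw [hP, mul_assoc, ← pow_add, hd, add_assoc, pow_add, ← mul_assoc, hone, one_mul]
    have hP1 : P ≤ 1 / 10 := by
      rw [hPd, pow_succ]
      have : (1 / 10 : ℝ) ^ d ≤ 1 := pow_le_one₀ (by norm_num) (by norm_num)
      linarith
    have hE3 : E < 1 / 2 := by linarith
    have hE4 : 0 ≤ E := by linarith
    constructor
    · intro h0
      exfalso
      nlinarith [mul_nonneg hE4 hE4]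
    · intro h0; omega
  · have hP1 : P = 1 := by
      rw [hP, mul_assoc, ← pow_add, h, hone]
    rw [hP1] at hE1 hE2
    constructor
    · intro _; exact h
    · intro _
      have h3 : E ^ 2 ≤ 4 := by nlinarith
      have h4 : 1 / 4 ≤ E ^ 2 := by nlinarith
      exact mul_nonneg (by linarith) (by linarith)
  · obtain ⟨d, hd⟩ : ∃ d, i = b + n + d + 1 := ⟨i - (b + n) - 1, by omega⟩
    have hPd : P = (10 : ℝ) ^ (d + 1) := by
      rw [hP, mul_assoc, ← pow_add, hd, add_assoc (b + n), pow_add, mul_assoc,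
        mul_comm ((10 : ℝ) ^ (d + 1)), ← mul_assoc, hone, one_mul]
    have hP1 : 10 ≤ P := by
      rw [hPd, pow_succ]
      have : 1 ≤ (10 : ℝ) ^ d := one_le_pow₀ (by norm_num)
      linarith
    have hE3 : 2 < E := by linarith
    constructor
    · intro h0
      exfalso
      nlinarith [mul_pos (sub_pos.mpr hE3) (sub_pos.mpr hE3)]
    · intro h0; omega

theorem pt_injective {n : ℕ} {s t : Finset ℕ} (h : pt n s = pt n t) : s = t := by
  by_contra hne
  obtain ⟨i, hi⟩ := exists_top hne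
  have h1 := (Xc_dist hi).1
  have h2 : Xc s = Xc t := congrArg Prod.fst h
  rw [h2, sub_self, abs_zero] at h1
  have : (0 : ℝ) < 8 / 9 * (10 : ℝ) ^ i := by positivity
  linarith

/-! ### The Ramsey number -/

/-- The defining property of the Ramsey number. -/
def Good (f : MvPolynomial (Fin 4) ℝ) (s n N : ℕ) : Prop :=
  ∀ v : Fin N → ℝ × ℝ, Function.Injective v →
    (∃ t : Finset (Fin N), (semiGraph f v).IsNClique s t) ∨
    (∃ t : Finset (Fin N), (semiGraph f v).IsNIndepSet n t)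

theorem good_mono {f : MvPolynomial (Fin 4) ℝ} {s n N M : ℕ} (h : Good f s n N) (hNM : N ≤ M) :
    Good f s n M := by
  classical
  intro v hv
  have hinj : Function.Injective (Fin.castLE hNM) := Fin.castLE_injective hNM
  have hadj : ∀ i j : Fin N, (semiGraph f (v ∘ Fin.castLE hNM)).Adj i j ↔
      (semiGraph f v).Adj (Fin.castLE hNM i) (Fin.castLE hNM j) := by
    intro i j
    exact Iff.rfl
  rcases h (v ∘ Fin.castLE hNM) (hv.comp hinj) with ⟨t, ht⟩ | ⟨t, ht⟩
  · left
    refine ⟨t.map ⟨Fin.castLE hNM, hinj⟩, ?_, ?_⟩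
    · intro x hx y hy hxy
      simp only [Finset.coe_map, Function.Embedding.coeFn_mk, Set.mem_image, Finset.mem_coe] at hx hy
      obtain ⟨i, hi, rfl⟩ := hx
      obtain ⟨j, hj, rfl⟩ := hy
      rw [← hadj]
      exact ht.1 hi hj (fun hij => hxy (by rw [hij]))
    · rw [Finset.card_map]; exact ht.2
  · right
    refine ⟨t.map ⟨Fin.castLE hNM, hinj⟩, ?_, ?_⟩
    · intro x hx y hy hxy
      simp only [Finset.coe_map, Function.Embedding.coeFn_mk, Set.mem_image, Finset.mem_coe] at hx hy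
      obtain ⟨i, hi, rfl⟩ := hx
      obtain ⟨j, hj, rfl⟩ := hy
      rw [← hadj]
      exact ht.1 hi hj (fun hij => hxy (by rw [hij]))
    · rw [Finset.card_map]; exact ht.2

theorem ramsey_aux {V : Type} [DecidableEq V] (G : SimpleGraph V)
    (hG : ∀ a b c, G.Adj a b → G.Adj a c → G.Adj b c → False) :
    ∀ (n : ℕ) (U : Finset V), n ^ 2 ≤ U.card →
      ∃ t : Finset V, t ⊆ U ∧ t.card = n ∧ ∀ a ∈ t, ∀ b ∈ t, ¬ G.Adj a b := by
  classical
  intro n
  induction n with
  | zero =>
    intro U _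
    exact ⟨∅, Finset.empty_subset _, rfl, by simp⟩
  | succ n ih =>
    intro U hU
    by_cases h : ∃ v ∈ U, n + 1 ≤ (U.filter (G.Adj v)).card
    · obtain ⟨v, _, hv2⟩ := h
      obtain ⟨t, ht, htc⟩ := Finset.exists_subset_card_eq hv2
      refine ⟨t, ht.trans (Finset.filter_subset _ _), htc, ?_⟩
      intro a ha b hb hab
      have h1 := (Finset.mem_filter.mp (ht ha)).2
      have h2 := (Finset.mem_filter.mp (ht hb)).2
      exact hG v a b h1 h2 hab
    · push Not at h
      have hne : U.Nonempty := by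
        rw [← Finset.card_pos]
        have : 0 < (n + 1) ^ 2 := by positivity
        omega
      obtain ⟨v, hv⟩ := hne
      have hdeg := h v hv
      set U' := (U.erase v) \ (U.filter (G.Adj v)) with hU'
      have hcard : n ^ 2 ≤ U'.card := by
        have h1 : (U.erase v).card - (U.filter (G.Adj v)).card ≤ U'.card :=
          Finset.le_card_sdiff _ _
        have h2 : (U.erase v).card = U.card - 1 := Finset.card_erase_of_mem hv
        have h3 : (n + 1) ^ 2 = n ^ 2 + 2 * n + 1 := by ring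
        omega
      obtain ⟨t, ht, htc, hti⟩ := ih U' hcard
      have hvt : v ∉ t := by
        intro hvt
        have := ht hvt
        rw [hU', Finset.mem_sdiff, Finset.mem_erase] at this
        exact this.1.1 rfl
      have hnadj : ∀ b ∈ t, ¬ G.Adj v b := by
        intro b hb hadj
        have := ht hb
        rw [hU', Finset.mem_sdiff, Finset.mem_erase, Finset.mem_filter] at this
        exact this.2 ⟨this.1.2, hadj⟩
      refine ⟨insert v t, ?_, ?_, ?_⟩
      · intro x hx
        rcases Finset.mem_insert.mp hx with rfl | hx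
        · exact hv
        · have := ht hx
          rw [hU', Finset.mem_sdiff, Finset.mem_erase] at this
          exact this.1.2
      · rw [Finset.card_insert_of_notMem hvt, htc]
      · intro a ha b hb hab
        rcases Finset.mem_insert.mp ha with ha' | ha'
        · rw [ha'] at hab
          rcases Finset.mem_insert.mp hb with hb' | hb'
          · rw [hb'] at hab
            exact hab.ne rfl
          · exact hnadj b hb' hab
        · rcases Finset.mem_insert.mp hb with hb' | hb'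
          · rw [hb'] at hab
            exact hnadj a ha' hab.symm
          · exact hti a ha' b hb' hab

theorem good_exists (f : MvPolynomial (Fin 4) ℝ) (n : ℕ) : Good f 3 n (n ^ 2) := by
  classical
  intro v _
  by_cases h : ∃ t : Finset (Fin (n ^ 2)), (semiGraph f v).IsNClique 3 t
  · exact Or.inl h
  · right
    have hG : ∀ a b c, (semiGraph f v).Adj a b → (semiGraph f v).Adj a c →
        (semiGraph f v).Adj b c → False := by
      intro a b c hab hac hbc
      exact h ⟨{a, b, c}, SimpleGraph.is3Clique_iff.mpr ⟨a, b, c, hab, hac, hbc, rfl⟩⟩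
    obtain ⟨t, _, htc, hti⟩ := ramsey_aux (semiGraph f v) hG n Finset.univ (by simp)
    exact ⟨t, fun a ha b hb _ => hti a ha b hb, htc⟩

theorem lt_semiRamsey {f : MvPolynomial (Fin 4) ℝ} {n M : ℕ} (h : ¬ Good f 3 n M) :
    M < semiRamsey f 3 n := by
  by_contra hcon
  push Not at hcon
  have hne : {N : ℕ | Good f 3 n N}.Nonempty := ⟨_, good_exists f n⟩
  have hmem : Good f 3 n (semiRamsey f 3 n) := Nat.sInf_mem hne
  exact h (good_mono hmem hcon)

theorem not_good (m n : ℕ) (hn : 8 ^ m < n) : ¬ Good ff 3 n (16 ^ m) := by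
  classical
  have hcard : ((range (2 * (2 * m))).powerset).card = 16 ^ m := by
    rw [Finset.card_powerset, Finset.card_range, ← mul_assoc, pow_mul]
    norm_num
  let e : Fin (16 ^ m) ≃ {s // s ∈ (range (2 * (2 * m))).powerset} :=
    (Finset.equivFinOfCardEq hcard).symm
  let v : Fin (16 ^ m) → ℝ × ℝ := fun i => pt (2 * m) (e i).1
  have hinj : Function.Injective v := by
    intro i j hij
    exact e.injective (Subtype.ext (pt_injective hij))
  have hadj : ∀ i j, (semiGraph ff v).Adj i j ↔ Far (2 * m) (e i).1 (e j).1 := by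
    intro i j
    have hfar : Far (2 * m) (e i).1 (e j).1 → i ≠ j := by
      rintro ⟨c, hc, _⟩ rfl
      exact hc.1 Iff.rfl
    constructor
    · rintro (⟨h1, h2⟩ | ⟨h1, h2⟩)
      · exact (edge_iff (fun h => h1.ne (e.injective (Subtype.ext h)))).mp h2
      · exact ((edge_iff (fun h => h1.ne (e.injective (Subtype.ext h)))).mp h2).symm
    · intro h
      rcases lt_or_gt_of_ne (hfar h) with h1 | h1
      · exact Or.inl ⟨h1, (edge_iff (fun h => h1.ne (e.injective (Subtype.ext h)))).mpr h⟩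
      · exact Or.inr ⟨h1, (edge_iff (fun h => h1.ne (e.injective (Subtype.ext h)))).mpr h.symm⟩
  intro hgood
  rcases hgood v hinj with ⟨t, ht⟩ | ⟨t, ht⟩
  · obtain ⟨a, b, c, hab, hac, hbc, _⟩ := SimpleGraph.is3Clique_iff.mp ht
    rw [hadj] at hab hac hbc
    exact no_triangle _ _ _ _ hab hbc hac
  · set S : Finset (Finset ℕ) := t.image (fun i => (e i).1) with hS
    have hinj2 : Function.Injective (fun i => (e i).1) := fun i j hij =>
      e.injective (Subtype.ext hij)
    have hSc : S.card = n := by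
      rw [hS, Finset.card_image_of_injective _ hinj2]; exact ht.2
    have h1 : S.card ≤ 8 ^ m := by
      apply card_bound
      · intro s hs
        rw [hS, Finset.mem_image] at hs
        obtain ⟨i, _, rfl⟩ := hs
        exact Finset.mem_powerset.mp (e i).2
      · intro s hs s' hs' hfar
        rw [hS, Finset.mem_image] at hs hs'
        obtain ⟨i, hi, rfl⟩ := hs
        obtain ⟨j, hj, rfl⟩ := hs'
        have h2 := (hadj i j).mpr hfar
        exact ht.1 hi hj h2.ne h2
    omega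

theorem lower_bound (n : ℕ) : (1 / 16 : ℝ) * (n : ℝ) ^ (4 / 3 : ℝ) ≤ (semiRamsey ff 3 n : ℝ) := by
  rcases Nat.eq_zero_or_pos n with rfl | hpos
  · have : ((0 : ℕ) : ℝ) ^ (4 / 3 : ℝ) = 0 := by
      rw [Nat.cast_zero]; exact Real.zero_rpow (by norm_num)
    rw [this]
    simp
  · rcases Nat.eq_or_lt_of_le hpos with h1 | h2
    · have hn : n = 1 := by omega
      subst hn
      have h0 : ¬ Good ff 3 1 0 := by
        intro h
        rcases h (fun i => i.elim0) (fun i => i.elim0) with ⟨t, ht⟩ | ⟨t, ht⟩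
        · have := ht.2
          have h2 : t = ∅ := Finset.eq_empty_of_isEmpty t
          rw [h2] at this
          simp at this
        · have := ht.2
          have h2 : t = ∅ := Finset.eq_empty_of_isEmpty t
          rw [h2] at this
          simp at this
      have h3 := lt_semiRamsey h0
      have h4 : (1 : ℝ) ≤ (semiRamsey ff 3 1 : ℝ) := by exact_mod_cast h3
      simp only [Nat.cast_one, Real.one_rpow]
      linarith
    · set m := Nat.log 8 (n - 1) with hm
      have h3 : 8 ^ m ≤ n - 1 := Nat.pow_log_le_self 8 (by omega)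
      have h4 : n - 1 < 8 ^ (m + 1) := Nat.lt_pow_succ_log_self (by norm_num) _
      have h5 := lt_semiRamsey (not_good m n (by omega))
      have h6 : (n : ℝ) ≤ (8 : ℝ) ^ (m + 1) := by
        have : n ≤ 8 ^ (m + 1) := by omega
        exact_mod_cast this
      have h7 : (n : ℝ) ^ (4 / 3 : ℝ) ≤ (16 : ℝ) ^ (m + 1) := by
        calc (n : ℝ) ^ (4 / 3 : ℝ) ≤ ((8 : ℝ) ^ (m + 1)) ^ (4 / 3 : ℝ) :=
              Real.rpow_le_rpow (by positivity) h6 (by norm_num)
          _ = (16 : ℝ) ^ (m + 1) := by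
              have h8 : (8 : ℝ) = (2 : ℝ) ^ (3 : ℕ) := by norm_num
              have h16 : (16 : ℝ) = (2 : ℝ) ^ (4 : ℕ) := by norm_num
              rw [h8, h16, ← pow_mul, ← pow_mul, ← Real.rpow_natCast, ← Real.rpow_natCast,
                ← Real.rpow_mul (by norm_num)]
              congr 1
              push_cast
              ring
      have h9 : (16 : ℝ) ^ m ≤ (semiRamsey ff 3 n : ℝ) := by
        have : 16 ^ m ≤ semiRamsey ff 3 n := h5.le
        exact_mod_cast this
      rw [pow_succ] at h7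
      linarith

/-- Negative answer: for one fixed polynomial the Ramsey number `R_f(3, n)` is at least
`n ^ (4/3) / 16` for every `n`; in particular it is not `n ^ (1 + o(1))`. -/
theorem result : ∃ f : MvPolynomial (Fin 4) ℝ,
    (∀ n : ℕ, (1 / 16 : ℝ) * (n : ℝ) ^ (4 / 3 : ℝ) ≤ (semiRamsey f 3 n : ℝ)) ∧
    ∃ ε : ℝ, 0 < ε ∧ ∀ n₀ : ℕ, ∃ n : ℕ, n₀ ≤ n ∧
      (n : ℝ) ^ (1 + ε) < (semiRamsey f 3 n : ℝ) := by
  refine ⟨ff, lower_bound, 1 / 6, by norm_num, fun n₀ => ?_⟩
  obtain ⟨K, hK⟩ : ∃ K : ℕ, (16 : ℝ) ^ 6 < (K : ℝ) := exists_nat_gt _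
  refine ⟨n₀ + K, by omega, ?_⟩
  obtain ⟨n, hn⟩ : ∃ n : ℕ, n = n₀ + K := ⟨_, rfl⟩
  rw [← hn]
  have h1 := lower_bound n
  have hKn : (16 : ℝ) ^ 6 < (n : ℝ) := by
    refine hK.trans_le ?_
    rw [hn]; push_cast
    have : (0 : ℝ) ≤ (n₀ : ℝ) := Nat.cast_nonneg _
    linarith
  have hn0 : (0 : ℝ) < (n : ℝ) := lt_trans (by positivity) hKn
  have h2 : (n : ℝ) ^ (4 / 3 : ℝ) = (n : ℝ) ^ (1 + 1 / 6 : ℝ) * (n : ℝ) ^ (1 / 6 : ℝ) := by
    rw [← Real.rpow_add hn0]; norm_num
  have h3 : (16 : ℝ) < (n : ℝ) ^ (1 / 6 : ℝ) := by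
    have h4 : ((16 : ℝ) ^ 6) ^ (1 / 6 : ℝ) = 16 := by
      rw [← Real.rpow_natCast, ← Real.rpow_mul (by norm_num)]
      norm_num
    calc (16 : ℝ) = ((16 : ℝ) ^ 6) ^ (1 / 6 : ℝ) := h4.symm
      _ < (n : ℝ) ^ (1 / 6 : ℝ) := Real.rpow_lt_rpow (by positivity) hKn (by norm_num)
  have h5 : 0 < (n : ℝ) ^ (1 + 1 / 6 : ℝ) := Real.rpow_pos_of_pos hn0 _
  rw [h2] at h1
  nlinarith

end Pool.Agent.Results.MP_8f4311_co.PlanarRamsey
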